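import Pool.Agent.DG71.Final

/-!
# Universal forms `x² + b y² + c z²`, `b = 1` or `2`, over totally real fields of any degree

Let `K` be a totally real number field, of any degree, `b ∈ {1, 2}` and `c ∈ 𝓞 K` totally
positive.  If the form `x² + b y² + c z²` represents all totally positive integers of `K`, then
`K` is `ℚ(√2)`, `ℚ(√3)` or `ℚ(√5)`: the degree of `K` is `2` and one of `2`, `3`, `5` is a square
in `𝓞 K`.
-/

namespace Pool.Agent.DG71.Old.DiagonalForms

open NumberField Pool.Agent.H7.Ternary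

theorem result (K : Type) [Field K] [NumberField K] [IsTotallyReal K] (b c : 𝓞 K)
    (hb : b = 1 ∨ b = 2) (hc : TotPos (c : K))
    (huniv : ∀ α : 𝓞 K, TotPos (α : K) → ∃ x y z : 𝓞 K, α = x ^ 2 + b * y ^ 2 + c * z ^ 2) :
    Module.finrank ℚ K = 2 ∧
      (IsSquare (2 : 𝓞 K) ∨ IsSquare (3 : 𝓞 K) ∨ IsSquare (5 : 𝓞 K)) :=
  Pool.Agent.DG71.final hb hc huniv

end Pool.Agent.DG71.Old.DiagonalForms
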